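import Mathlib
import Pool.Agent.Lib.helper21.React2

open MeasureTheory Set Function

namespace Pool.Agent.Results.MP_360b3f_an.Counter

/-- Euclidean space of dimension three. -/
abbrev E3 := EuclideanSpace ℝ (Fin 3)

/-- The heat kernel `(4 π τ)^(-3/2) exp (-|y|^2 / (4 τ))` of the Laplacian on `ℝ³`. -/
noncomputable def heat (τ : ℝ) (y : E3) : ℝ :=
  Real.exp (-‖y‖ ^ 2 / (4 * τ)) / (√(4 * Real.pi * τ)) ^ 3

/-- The nonlocal operator `J_K w (x) = ⟨K⟩ w(x) - (K * w)(x)`. -/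
noncomputable def nonlocal (K w : E3 → ℝ) (x : E3) : ℝ :=
  (∫ y, K y) * w x - ∫ y, K (x - y) * w y

/-- `(u, v)` is a global mild solution of `u_t + J_K u = v f(u)`, `v_t - Δ v = - v f(u)` with
`u(0) = u₀`, `v(0) = 1`: jointly measurable, and at almost every point `x`, for all times
`t ≥ 0`, `u ≥ 0`, `0 ≤ v ≤ 1`, the first equation holds in integrated form and the second in
Duhamel form (the heat semigroup fixes the constant `1`). -/
def IsSolution (K : E3 → ℝ) (f : ℝ → ℝ) (u₀ : E3 → ℝ) (u v : ℝ → E3 → ℝ) : Prop :=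
  Measurable (uncurry u) ∧ Measurable (uncurry v) ∧
  ∀ᵐ x : E3, ∀ t : ℝ, 0 ≤ t →
    0 ≤ u t x ∧ 0 ≤ v t x ∧ v t x ≤ 1 ∧
    u t x = u₀ x + ∫ s in (0 : ℝ)..t, (-nonlocal K (u s) x + v s x * f (u s x)) ∧
    v t x = 1 - ∫ s in (0 : ℝ)..t, ∫ y, heat (t - s) (x - y) * (v s y * f (u s y))

open Pool.Agent.Lib.Helper21 in
theorem result : ∃ (K : E3 → ℝ) (f : ℝ → ℝ) (u₀ : E3 → ℝ),
    (ContDiff ℝ (⊤ : ℕ∞) K ∧ HasCompactSupport K ∧ (∀ y, 0 ≤ K y) ∧ 0 < K 0 ∧
      ∀ y, K (-y) = K y) ∧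
    (ContDiff ℝ (⊤ : ℕ∞) f ∧ ∀ r, 0 ≤ f r) ∧
    (Measurable u₀ ∧ (∀ x, 0 ≤ u₀ x ∧ u₀ x ≤ 3) ∧ HasCompactSupport u₀) ∧
    ∀ u v : ℝ → E3 → ℝ, IsSolution K f u₀ u v →
      ¬ ∃ M : ℝ, ∀ᵐ x : E3, ∀ t : ℝ, 0 ≤ t → u t x ≤ M := by
  refine ⟨React1.K, React1.ff, React1.u0,
    ⟨React1.K_smooth, React1.K_cs, React1.K_nonneg, React1.K_zero, React1.K_even⟩,
    ⟨React1.ff_smooth, React1.ff_nonneg⟩,
    ⟨measurable_const.indicator React1.meas_EE, fun x => ⟨indicator_nonneg (by simp) x,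
      indicator_le_self' (s := React1.EE) (f := fun _ => (3 : ℝ)) (fun _ _ => by norm_num) x⟩,
      HasCompactSupport.intro (isCompact_closedBall 0 2) fun x hx =>
        indicator_of_notMem (fun h => hx (Metric.ball_subset_closedBall (React1.EE_sub h))) _⟩, ?_⟩
  rintro u v ⟨mu, mv, hs⟩ ⟨M, hM⟩
  set u' : ℝ → E3 → ℝ := fun t x => max 0 (min (u t x) (max M 0)) with hu'
  set v' : ℝ → E3 → ℝ := fun t x => max 0 (min (v t x) 1) with hv'
  have hae : ∀ᵐ y : E3, ∀ s : ℝ, 0 ≤ s → u' s y = u s y ∧ v' s y = v s y := by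
    filter_upwards [hs, hM] with y h1 h2 s h
    obtain ⟨a1, a2, a3, -⟩ := h1 s h
    simp only [hu', hv']
    rw [min_eq_left ((h2 s h).trans (le_max_left _ _)), max_eq_right a1, min_eq_left a3,
      max_eq_right a2]
    exact ⟨rfl, rfl⟩
  refine React2.Sol.false (u := u') (v := v') (M := max M 0)
    ⟨measurable_const.max (mu.min measurable_const), measurable_const.max (mv.min measurable_const),
      fun _ _ => le_max_left _ _, fun _ _ => max_le (le_max_right _ _) (min_le_right _ _),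
      fun _ _ => le_max_left _ _, fun _ _ => max_le zero_le_one (min_le_right _ _), ?_⟩
  filter_upwards [hs, hae] with x h1 h2 t ht
  obtain ⟨-, -, -, e1, e2⟩ := h1 t ht
  rw [(h2 t ht).1, (h2 t ht).2, e1, e2]
  constructor
  · congr 1
    refine intervalIntegral.integral_congr fun s hs => ?_
    rw [uIcc_of_le ht] at hs
    have e3 : React2.cc u' s x = ∫ y, React1.K (x - y) * u s y := by
      refine integral_congr_ae ?_
      filter_upwards [hae] with y hy
      rw [(hy s hs.1).1]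
    simp only [React2.rhs, React2.hh, nonlocal, e3, (h2 s hs.1).1, (h2 s hs.1).2, React1.kk]
    ring
  · congr 1
    refine intervalIntegral.integral_congr fun s hs => ?_
    rw [uIcc_of_le ht] at hs
    refine integral_congr_ae ?_
    filter_upwards [hae] with y hy
    simp only [React2.hh, (hy s hs.1).1, (hy s hs.1).2]
    rfl

end Pool.Agent.Results.MP_360b3f_an.Counter
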